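import Pool.Agent.R178.HC.Fin67

set_option autoImplicit false

namespace Pool.Agent.Results.MP_67fd2b_co.SpNekrasovOkounkov

open Finset Pool.Agent.R153.Sp Pool.Agent.R178.HC

/-- The indeterminate `t` of `ℚ[t]`. -/
noncomputable def t : Polynomial ℚ := Polynomial.X

/-- `w_sp(λ; t)`, the product over the cells of `(t + c_sp ^ 2) / h ^ 2`. -/
noncomputable def wsp (μ : YoungDiagram) : Polynomial ℚ :=
  ∏ c ∈ μ.cells, (t + Polynomial.C (csp μ c ^ 2)) * Polynomial.C ((hook μ c ^ 2)⁻¹)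

/-- `w_O(λ; t)`, the product over the cells of `(t + c_O ^ 2) / h ^ 2`. -/
noncomputable def wO (μ : YoungDiagram) : Polynomial ℚ :=
  ∏ c ∈ μ.cells, (t + Polynomial.C (cO μ c ^ 2)) * Polynomial.C ((hook μ c ^ 2)⁻¹)

/-- The series `F_sp(x, t)`. -/
noncomputable def Fsp : PowerSeries (Polynomial ℚ) :=
  PowerSeries.mk fun n => ∑ μ ∈ diagrams n, wsp μ

/-- The series `F_O(x, t)`. -/
noncomputable def FO : PowerSeries (Polynomial ℚ) :=
  PowerSeries.mk fun n => ∑ μ ∈ diagrams n, wO μ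

/-- `F_sp = F_O`, and the product of this series and of the first `M` factors
`(1 - x ^ (4 j - 2)) (1 - x ^ j) ^ t` is `1` up to terms in `x` of degree greater than `M`
(`pw j t` is `(1 - x ^ j) ^ t`). -/
theorem result : Fsp = FO ∧ ∀ n M : ℕ, n ≤ M →
    PowerSeries.coeff n (Fsp * ∏ j ∈ range M,
      ((1 - PowerSeries.X ^ (4 * (j + 1) - 2)) * pw (j + 1) t)) = if n = 0 then 1 else 0 :=
  Fin67.final67

end Pool.Agent.Results.MP_67fd2b_co.SpNekrasovOkounkov
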